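import Pool.Agent.W617.LG.StmIV
/-! Laugwitz' problem, Part IV: recurrence for volume preserving multivalued maps. -/
set_option autoImplicit false
open Topology Filter Set MeasureTheory
open scoped ContDiff InnerProductSpace ENNReal NNReal

namespace Pool.Agent.W704.LG
open Pool.Agent.W617.LG

theorem part {q : ℕ} (K : Set (E q)) (g : E q → E q)
    (hg : ∀ x ∈ K, ContDiffAt ℝ 1 g x ∧ (fderiv ℝ g x).det = 1) :
    ∃ t : ℕ → Set (E q), Pairwise (Function.onFun Disjoint t) ∧ (∀ n, MeasurableSet (t n)) ∧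
      K ⊆ ⋃ n, t n ∧ ∀ n, InjOn g (K ∩ t n) := by
  classical
  rcases K.eq_empty_or_nonempty with rfl | hKne
  · refine ⟨fun _ => ∅, fun i j _ => by simp [Function.onFun], fun n => MeasurableSet.empty,
      empty_subset _, fun n => by simp⟩
  let r : (E q →L[ℝ] E q) → ℝ≥0 := fun A =>
    if h : A.det ≠ 0 then
      ‖((A.toContinuousLinearEquivOfDetNeZero h).symm : E q →L[ℝ] E q)‖₊⁻¹ / 2 else 1
  have hsub : ¬ Subsingleton (E q) := by
    rw [not_subsingleton_iff_nontrivial]
    infer_instance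
  have hpos : ∀ (A : E q →L[ℝ] E q) (h : A.det ≠ 0),
      0 < ‖((A.toContinuousLinearEquivOfDetNeZero h).symm : E q →L[ℝ] E q)‖₊ := by
    intro A h
    rcases (A.toContinuousLinearEquivOfDetNeZero h).subsingleton_or_nnnorm_symm_pos with h1 | h1
    · exact absurd h1 hsub
    · exact h1
  have rpos : ∀ A, r A ≠ 0 := by
    intro A
    by_cases h : A.det ≠ 0
    · simp only [r, dif_pos h]
      have := hpos A h
      positivity
    · simp only [r, dif_neg h]
      exact one_ne_zero
  obtain ⟨t, A, h1, h2, h3, h4, h5⟩ :=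
    exists_partition_approximatesLinearOn_of_hasFDerivWithinAt g K (fderiv ℝ g)
      (fun x hx => ((hg x hx).1.differentiableAt one_ne_zero).hasFDerivAt.hasFDerivWithinAt) r rpos
  refine ⟨t, h1, h2, h3, fun n => ?_⟩
  obtain ⟨y, hy, hAy⟩ := h5 hKne n
  have hdet : (A n).det ≠ 0 := by
    rw [hAy, (hg y hy).2]
    exact one_ne_zero
  have h6 : ApproximatesLinearOn g
      (((A n).toContinuousLinearEquivOfDetNeZero hdet : E q ≃L[ℝ] E q) : E q →L[ℝ] E q)
      (K ∩ t n) (r (A n)) := by
    rw [ContinuousLinearMap.coe_toContinuousLinearEquivOfDetNeZero]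
    exact h4 n
  refine h6.injOn (Or.inr ?_)
  simp only [r, dif_pos hdet]
  exact NNReal.half_lt_self (inv_ne_zero (hpos _ hdet).ne')

theorem ret : S_RET := by
  intro q Z π Φ K R N₀ G hK hKpos hR hRfin hfib hinj hmem hdiff
  classical
  by_contra hcon
  have hcon' : ∀ j j' : ℕ, j < j' → ∀ x ∈ K, ∀ x' ∈ K, Φ j x ≠ Φ j' x' := by
    intro j j' hj x hx x' hx' he
    exact hcon ⟨j, j', hj, x, hx, x', hx', he⟩
  have hne : ∀ j j' : ℕ, ∀ x ∈ K, ∀ x' ∈ K, Φ j x = Φ j' x' → j = j' := by
    intro j j' x hx x' hx' he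
    rcases lt_trichotomy j j' with h | h | h
    · exact absurd he (hcon' j j' h x hx x' hx')
    · exact h
    · exact absurd he.symm (hcon' j' j h x' hx' x hx)
  choose t ht1 ht2 ht3 ht4 using fun j => part K (fun x => π (Φ j x)) (hdiff j)
  have hKm : MeasurableSet K := hK.measurableSet
  set A : ℕ × ℕ → Set (E q) := fun p => (fun x => π (Φ p.1 x)) '' (K ∩ t p.1 p.2) with hA
  have hsm : ∀ p : ℕ × ℕ, MeasurableSet (K ∩ t p.1 p.2) := fun p => hKm.inter (ht2 p.1 p.2)
  have hder : ∀ p : ℕ × ℕ, ∀ x ∈ K ∩ t p.1 p.2, HasFDerivWithinAt (fun x => π (Φ p.1 x))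
      (fderiv ℝ (fun x => π (Φ p.1 x)) x) (K ∩ t p.1 p.2) x := fun p x hx =>
    ((hdiff p.1 x hx.1).1.differentiableAt one_ne_zero).hasFDerivAt.hasFDerivWithinAt
  have hAm : ∀ p, MeasurableSet (A p) := fun p =>
    measurable_image_of_fderivWithin (hsm p) (hder p) (ht4 p.1 p.2)
  have hAvol : ∀ p, volume (A p) = volume (K ∩ t p.1 p.2) := by
    intro p
    change volume ((fun x => π (Φ p.1 x)) '' (K ∩ t p.1 p.2)) = _
    rw [← lintegral_abs_det_fderiv_eq_addHaar_image volume (hsm p) (hder p) (ht4 p.1 p.2)]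
    rw [← setLIntegral_one]
    refine setLIntegral_congr_fun (hsm p) (fun x hx => ?_)
    change ENNReal.ofReal |(fderiv ℝ (fun x => π (Φ p.1 x)) x).det| = 1
    rw [(hdiff p.1 x hx.1).2]
    simp
  have hAR : ∀ p, A p ⊆ R := by
    rintro p _ ⟨x, hx, rfl⟩
    exact (hmem p.1 x hx.1).2
  have hcount : ∀ w, ∑' p, (A p).indicator (1 : E q → ℝ≥0∞) w ≤ (N₀ : ℝ≥0∞) := by
    intro w
    refine ENNReal.summable.tsum_le_of_sum_le (fun F => ?_)
    have e1 : ∑ p ∈ F, (A p).indicator (1 : E q → ℝ≥0∞) w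
        = ((F.filter (fun p => w ∈ A p)).card : ℝ≥0∞) := by
      rw [Finset.card_filter]
      push_cast
      refine Finset.sum_congr rfl (fun p _ => ?_)
      by_cases h : w ∈ A p
      · simp [h]
      · simp [h]
    rw [e1]
    have e2 : ((F.filter (fun p => w ∈ A p)).card : ℕ∞) ≤ (N₀ : ℕ∞) := by
      refine le_trans ?_ (hfib w)
      rw [← Set.encard_coe_eq_coe_finsetCard]
      have h7 : ∀ p : ℕ × ℕ, p ∈ (↑(F.filter (fun p => w ∈ A p)) : Set (ℕ × ℕ)) →
          ∃ x, x ∈ K ∩ t p.1 p.2 ∧ π (Φ p.1 x) = w := by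
        intro p hp
        have : w ∈ A p := by
          have := Finset.mem_coe.1 hp
          exact (Finset.mem_filter.1 this).2
        exact this
      choose! x hx1 hx2 using h7
      refine Set.encard_le_encard_of_injOn (f := fun p => Φ p.1 (x p)) ?_ ?_
      · intro p hp
        exact ⟨(hmem p.1 (x p) (hx1 p hp).1).1, hx2 p hp⟩
      · intro p hp p' hp' he
        have h8 : p.1 = p'.1 := hne _ _ _ (hx1 p hp).1 _ (hx1 p' hp').1 he
        obtain ⟨j, i⟩ := p
        obtain ⟨j', i'⟩ := p'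
        simp only at h8
        subst h8
        have h9 : x (j, i) = x (j, i') := hinj j (hx1 _ hp).1 (hx1 _ hp').1 he
        by_contra hne2
        have hii : i ≠ i' := fun h => hne2 (by rw [h])
        have h10 := ht1 j hii
        rw [Function.onFun, Set.disjoint_left] at h10
        refine h10 (hx1 _ hp).2 ?_
        rw [h9]
        exact (hx1 _ hp').2
    exact_mod_cast e2
  have hsum : ∀ j, ∑' i, volume (A (j, i)) = volume K := by
    intro j
    have e3 : ∀ i, volume (A (j, i)) = volume (K ∩ t j i) := fun i => hAvol (j, i)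
    simp only [e3]
    rw [← measure_iUnion]
    · rw [← inter_iUnion, inter_eq_left.2 (ht3 j)]
    · intro a b hab
      exact (ht1 j hab).mono inter_subset_right inter_subset_right
    · exact fun i => hsm (j, i)
  have htop : ∑' p : ℕ × ℕ, volume (A p) = ⊤ := by
    rw [ENNReal.tsum_prod']
    simp only [hsum]
    exact ENNReal.tsum_const_eq_top_of_ne_zero hKpos.ne'
  have hle : ∑' p : ℕ × ℕ, volume (A p) ≤ N₀ * volume R := by
    have e4 : ∀ p, volume (A p) = ∫⁻ w in R, (A p).indicator 1 w := by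
      intro p
      rw [lintegral_indicator_one (hAm p), Measure.restrict_apply (hAm p),
        inter_eq_left.2 (hAR p)]
    simp only [e4]
    rw [← lintegral_tsum (fun p => (measurable_one.indicator (hAm p)).aemeasurable)]
    calc ∫⁻ w in R, ∑' p, (A p).indicator (1 : E q → ℝ≥0∞) w ≤ ∫⁻ _ in R, (N₀ : ℝ≥0∞) :=
          lintegral_mono (fun w => hcount w)
      _ = N₀ * volume R := by rw [setLIntegral_const]
  rw [htop, top_le_iff] at hle
  exact (ENNReal.mul_lt_top (ENNReal.natCast_lt_top N₀) hRfin).ne hle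

end Pool.Agent.W704.LG
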