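import Pool.Agent.W617.LG.StmIV
/-! Laugwitz' problem, Part IV: integral curves of `XF` stay good frames. -/
set_option autoImplicit false
open Topology Filter Set MeasureTheory
open scoped ContDiff InnerProductSpace

namespace Pool.Agent.W704.LG
open Pool.Agent.W617.LG

theorem lam_smooth {q : ℕ} {C : TF q} {τ : E q → ℝ} (h : LW q C τ) (x : E q) (hx : x ≠ 0)
    (v : E q → E q) (hv : ContDiffAt ℝ ∞ v x) : ContDiffAt ℝ ∞ (fun x => lam C x (v x)) x := by
  unfold lam
  exact (((h.smooth x hx).clm_apply hv).clm_apply hv).inner ℝ hv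

theorem PP_smooth {q : ℕ} {C : TF q} {τ : E q → ℝ} (h : LW q C τ) (x : E q) (hx : x ≠ 0)
    (e : E q → Fin (q + 1) → E q) (he : ContDiffAt ℝ ∞ e x) :
    ContDiffAt ℝ ∞ (fun x => PP C x (e x)) x := by
  unfold PP
  exact contDiffAt_prod (fun l _ => lam_smooth h x hx _ (contDiffAt_pi.1 he l.succ))

/-- near a good frame the integral curve is given by a smooth adapted frame field -/
theorem loc (hF : S_FRAME') (hS : S_STR) (hX : S_SMX) (hU : S_UNQ) {q : ℕ} {C : TF q} {τ : E q → ℝ}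
    (h : LW q C τ) (a b : ℝ) (γ : ℝ → FB q)
    (hγ : ∀ t ∈ Ioo a b, γ t ∈ Om C ∧ HasDerivAt γ (XF C (γ t)) t) (t₁ : ℝ) (ht₁ : t₁ ∈ Ioo a b)
    (hG : GF C (γ t₁).1 (γ t₁).2) :
    ∃ e : E q → Fin (q + 1) → E q, ContDiffAt ℝ ∞ e (γ t₁).1 ∧ e (γ t₁).1 = (γ t₁).2 ∧
      (∀ᶠ x in 𝓝 (γ t₁).1, AF C x (e x)) ∧ ∀ᶠ s in 𝓝 t₁, (γ s).2 = e (γ s).1 := by
  obtain ⟨e, he1, he2⟩ := hF q C τ h (γ t₁).1 (γ t₁).2 hG.toAF (fun l => (hG.pos l).ne')
  have hx1 : (γ t₁).1 ≠ 0 := hG.x0
  have hes : ContDiffAt ℝ ∞ e (γ t₁).1 := (he2.self_of_nhds).1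
  have hFs : ContDiffAt ℝ 1 (fun x => PP C x (e x) • e x 0) (γ t₁).1 := by
    refine ContDiffAt.of_le (n := ∞) ?_ (by exact_mod_cast le_top)
    exact (PP_smooth h _ hx1 e hes).smul (contDiffAt_pi.1 hes 0)
  obtain ⟨y, hy0, ε, hε, hy⟩ :=
    hFs.exists_forall_mem_closedBall_exists_eq_forall_mem_Ioo_hasDerivAt₀ t₁
  have hyc : ContinuousAt y t₁ := (hy t₁ ⟨by linarith, by linarith⟩).continuousAt
  have hyt : Tendsto y (𝓝 t₁) (𝓝 (γ t₁).1) := by
    have := hyc.tendsto
    rwa [hy0] at this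
  -- good points
  have hpos : ∀ᶠ x in 𝓝 (γ t₁).1, ∀ l : Fin q, 0 < lam C x (e x l.succ) := by
    rw [Filter.eventually_all]
    intro l
    have hc := (lam_smooth h _ hx1 _ (contDiffAt_pi.1 hes l.succ)).continuousAt
    have h0 : 0 < lam C (γ t₁).1 (e (γ t₁).1 l.succ) := by
      rw [he1]
      exact hG.pos l
    exact hc.eventually (lt_mem_nhds h0)
  have hgood : ∀ᶠ s in 𝓝 t₁, (∀ᶠ x in 𝓝 (y s), ContDiffAt ℝ ∞ e x ∧ AF C x (e x)) ∧
      (∀ l : Fin q, 0 < lam C (y s) (e (y s) l.succ)) := by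
    have h1 := hyt.eventually he2.eventually_nhds
    have h2 := hyt.eventually hpos
    exact h1.and h2
  obtain ⟨r, hr, hr2⟩ := Metric.eventually_nhds_iff.1 hgood
  obtain ⟨δ, hδ, hδ1, hδ2, hδ3, hδ4⟩ : ∃ δ > 0, δ ≤ r ∧ δ ≤ ε ∧ a ≤ t₁ - δ ∧ t₁ + δ ≤ b := by
    refine ⟨min (min r ε) (min (t₁ - a) (b - t₁)), ?_, ?_, ?_, ?_, ?_⟩
    · have := ht₁.1
      have := ht₁.2
      refine lt_min (lt_min hr hε) (lt_min (by linarith) (by linarith))
    · exact (min_le_left _ _).trans (min_le_left _ _)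
    · exact (min_le_left _ _).trans (min_le_right _ _)
    · have : min (min r ε) (min (t₁ - a) (b - t₁)) ≤ t₁ - a :=
        (min_le_right _ _).trans (min_le_left _ _)
      linarith
    · have : min (min r ε) (min (t₁ - a) (b - t₁)) ≤ b - t₁ :=
        (min_le_right _ _).trans (min_le_right _ _)
      linarith
  have hζ : ∀ s ∈ Ioo (t₁ - δ) (t₁ + δ), ((y s, e (y s)) : FB q) ∈ Om C ∧
      HasDerivAt (fun s => ((y s, e (y s)) : FB q)) (XF C (y s, e (y s))) s := by
    intro s hs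
    have hs' : dist s t₁ < r := by
      rw [Real.dist_eq, abs_lt]
      constructor <;> linarith [hs.1, hs.2]
    obtain ⟨g1, g2⟩ := hr2 hs'
    have g3 := g1.self_of_nhds
    have hys := hy s ⟨by linarith [hs.1], by linarith [hs.2]⟩
    refine ⟨⟨g3.2.x0, g2⟩, ?_⟩
    have hstr := (hS q C τ h (y s) e g3.1 (g1.mono fun _ hx => hx.2) (fun l => (g2 l).ne')).1
    have hed : HasFDerivAt e (fderiv ℝ e (y s)) (y s) :=
      (g3.1.differentiableAt (by simp)).hasFDerivAt
    have h5 := hed.comp_hasDerivAt s hys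
    rw [map_smul, hstr] at h5
    have h6 := hys.prodMk h5
    exact h6
  have huq := hU q (XF C) (Om C) (hX q C τ h).1 (hX q C τ h).2.2 (t₁ - δ) (t₁ + δ) t₁ γ
    (fun s => ((y s, e (y s)) : FB q)) ⟨by linarith, by linarith⟩
    (fun t ht => hγ t ⟨by linarith [ht.1], by linarith [ht.2]⟩) hζ
    (by rw [hy0, he1])
  refine ⟨e, hes, he1, he2.mono fun _ hx => hx.2, ?_⟩
  filter_upwards [Ioo_mem_nhds (show t₁ - δ < t₁ by linarith) (show t₁ < t₁ + δ by linarith)] with s hs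
  have := huq s hs
  rw [this]

theorem tan (hF : S_FRAME') (hS : S_STR) (hX : S_SMX) (hU : S_UNQ) : S_TAN := by
  intro q C τ h a b t₀ γ ht₀ hγ hG₀
  -- all good
  have hall : ∀ t ∈ Ioo a b, GF C (γ t).1 (γ t).2 := by
    have hopen : IsOpen {t | t ∈ Ioo a b ∧ GF C (γ t).1 (γ t).2} := by
      rw [isOpen_iff_mem_nhds]
      rintro t ⟨ht, hG⟩
      obtain ⟨e, hes, he1, he2, he3⟩ := loc hF hS hX hU h a b γ hγ t ht hG
      have hc : Tendsto (fun s => (γ s).1) (𝓝 t) (𝓝 (γ t).1) :=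
        (continuous_fst.continuousAt.comp (hγ t ht).2.continuousAt)
      filter_upwards [isOpen_Ioo.mem_nhds ht, he3, hc.eventually he2] with s hs h1 h2
      refine ⟨hs, ?_⟩
      rw [h1]
      refine ⟨h2, fun l => ?_⟩
      have := (hγ s hs).1.2 l
      rwa [h1] at this
    have hsub := isPreconnected_Ioo.subset_of_closure_inter_subset (s := Ioo a b) hopen
      ⟨t₀, ht₀, ht₀, hG₀⟩ (by
        rintro t ⟨htc, ht⟩
        refine ⟨ht, ?_⟩
        have hfr := mem_closure_iff_frequently.1 htc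
        have hOm := (hγ t ht).1
        have hc := (hγ t ht).2.continuousAt
        have hc1 : ContinuousAt (fun s => (γ s).1) t := continuous_fst.continuousAt.comp hc
        have hc2 : ∀ i, ContinuousAt (fun s => (γ s).2 i) t := fun i =>
          ((continuous_apply i).comp continuous_snd).continuousAt.comp hc
        have hcC : ContinuousAt (fun s => C (γ s).1) t := by
          have h7 := (h.smooth (γ t).1 hOm.1).continuousAt
          exact ContinuousAt.comp (f := fun s => (γ s).1) h7 hc1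
        refine ⟨⟨hOm.1, fun i j => ?_, fun i => ?_, fun i j hij => ?_⟩, hOm.2⟩
        · have hcc : ContinuousAt (fun s => ⟪(γ s).2 i, (γ s).2 j⟫_ℝ) t := (hc2 i).inner (hc2 j)
          exact (isClosed_singleton (x := (if i = j then (1:ℝ) else 0))).mem_of_frequently_of_tendsto
            (hfr.mono fun s hs => hs.2.on i j) hcc.tendsto
        · have hcc : ContinuousAt (fun s => ⟪(γ s).1, (γ s).2 i⟫_ℝ) t := hc1.inner (hc2 i)
          exact (isClosed_singleton (x := (0:ℝ))).mem_of_frequently_of_tendsto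
            (hfr.mono fun s hs => hs.2.rad i) hcc.tendsto
        · have hcc : ContinuousAt (fun s => C (γ s).1 ((γ s).2 i) ((γ s).2 j)) t :=
            (hcC.clm_apply (hc2 i)).clm_apply (hc2 j)
          exact (isClosed_singleton (x := (0:E q))).mem_of_frequently_of_tendsto
            (hfr.mono fun s hs => hs.2.diag i j hij) hcc.tendsto)
    exact fun t ht => (hsub ht).2
  have hd1 : ∀ t ∈ Ioo a b, HasDerivAt (fun s => (γ s).1)
      (PP C (γ t).1 (γ t).2 • (γ t).2 0) t := by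
    intro t ht
    exact (hγ t ht).2.fst
  have hnorm : ∀ t ∈ Ioo a b, ‖(γ t).1‖ = ‖(γ t₀).1‖ := by
    intro t ht
    have hdd : ∀ t ∈ Ioo a b, HasDerivAt (fun s => ⟪(γ s).1, (γ s).1⟫_ℝ) 0 t := by
      intro t ht
      have h1 := (hd1 t ht).inner ℝ (hd1 t ht)
      have h2 := (hall t ht).rad 0
      refine h1.congr_deriv ?_
      rw [real_inner_comm (γ t).1 (PP C (γ t).1 (γ t).2 • (γ t).2 0), inner_smul_right, h2]
      simp
    have h3 := isOpen_Ioo.is_const_of_deriv_eq_zero (s := Ioo a b) isPreconnected_Ioo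
      (f := fun s => ⟪(γ s).1, (γ s).1⟫_ℝ)
      (fun t ht => (hdd t ht).differentiableAt.differentiableWithinAt)
      (fun t ht => (hdd t ht).deriv) ht ht₀
    simp only [real_inner_self_eq_norm_sq] at h3
    exact (sq_eq_sq₀ (norm_nonneg _) (norm_nonneg _)).1 h3
  intro t ht
  refine ⟨hall t ht, hnorm t ht, fun l => ?_⟩
  obtain ⟨e, hes, he1, he2, he3⟩ := loc hF hS hX hU h a b γ hγ t ht (hall t ht)
  have hstr := (hS q C τ h (γ t).1 e hes he2 (fun l => by
    rw [he1]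
    exact ((hall t ht).pos l).ne')).2.2 l
  have hgd : HasFDerivAt (fun x => lam C x (e x l.succ))
      (fderiv ℝ (fun x => lam C x (e x l.succ)) (γ t).1) (γ t).1 :=
    ((lam_smooth h _ (hall t ht).x0 _ (contDiffAt_pi.1 hes l.succ)).differentiableAt
      (by simp)).hasFDerivAt
  have h5 := hgd.comp_hasDerivAt t (hd1 t ht)
  rw [map_smul] at h5
  rw [he1] at hstr
  rw [hstr] at h5
  refine (h5.congr_of_eventuallyEq ?_).congr_deriv ?_
  · filter_upwards [he3] with s hs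
    change lam C (γ s).1 ((γ s).2 l.succ) = lam C (γ s).1 (e (γ s).1 l.succ)
    rw [hs]
  · rw [smul_eq_mul]

end Pool.Agent.W704.LG
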